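import Pool.Agent.TRA.Sum
import Pool.Agent.SPT.RelF

/-!
# TRP, module Sum: the product over the blocks for one weight vector (helper62)
-/

set_option autoImplicit false
set_option linter.unusedSectionVars false

open Submodule Module

namespace Pool.Agent.TRP

open Pool.Agent.SPT Pool.Agent.SPT.Rel Pool.Agent.TRA

variable {V : Type} [AddCommGroup V] [Module (ZMod 2) V] [DecidableEq V]

theorem nzu_union (X Y : Finset V) (u : V → ℤ) (hXY : Disjoint X Y)
    (hd : Disjoint (span (ZMod 2) (X : Set V)) (span (ZMod 2) (Y : Set V)))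
    (hX : NZu X u) (hY : NZu Y u) : NZu (X ∪ Y) u := by
  obtain ⟨z, hz, hne⟩ := SumNV_common (SumNV_PP X u) (SumNV_PP Y u) hX hY
  exact ⟨z, hz, by rw [SumNV_PP_union X Y hXY hd]; exact hne⟩

theorem nzu_empty (u : V → ℤ) : NZu (∅ : Finset V) u := by
  refine ⟨1, norm_one, ?_⟩
  unfold PP
  rw [Finset.powerset_empty, Finset.sum_singleton,
    if_pos (show Spans ⊥ (∅ : Finset V) ∅ from rfl), Finset.prod_empty]
  exact one_ne_zero

/-- **product over the blocks** -/
theorem nzu_parts (X : Finset V) (p : V → ℕ)
    (hsp : ∀ J ⊆ X, (∀ q, Co X (J.filter fun v => p v = q)) → Co X J) (u : V → ℤ)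
    (hq : ∀ q, NZu (X.filter fun v => p v = q) u) : NZu X u := by
  have hdis := parts_disjoint X p hsp
  have hall : ∀ (Q : Finset ℕ) (Z : Finset V), Z ⊆ X → (∀ v ∈ Z, p v ∈ Q) →
      (∀ q ∈ Q, (Z.filter fun v => p v = q) = X.filter fun v => p v = q) → NZu Z u := by
    intro Q
    induction Q using Finset.induction_on with
    | empty =>
      intro Z _ hZQ _
      have h0 : Z = ∅ := by
        rw [Finset.eq_empty_iff_forall_notMem]
        intro v hv
        exact absurd (hZQ v hv) (Finset.notMem_empty _)
      rw [h0]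
      exact nzu_empty u
    | insert q Q hqQ ih =>
      intro Z hZX hZQ hZs
      have h1 : Z = (Z.filter fun v => p v = q) ∪ (Z.filter fun v => ¬ p v = q) :=
        (Finset.filter_union_filter_not_eq _ _).symm
      rw [h1]
      refine nzu_union _ _ u (Finset.disjoint_filter_filter_not _ _ _) ?_ ?_ (ih _ ?_ ?_ ?_)
      · refine (hdis q).mono (span_mono (Finset.coe_subset.2 (Finset.filter_subset_filter _ hZX)))
          (span_mono (Finset.coe_subset.2 ?_))
        intro v hv
        rw [Finset.mem_filter] at hv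
        rw [Finset.mem_sdiff, Finset.mem_filter, not_and]
        exact ⟨hZX hv.1, fun _ => hv.2⟩
      · rw [hZs q (Finset.mem_insert_self q Q)]
        exact hq q
      · exact (Finset.filter_subset _ _).trans hZX
      · intro v hv
        rw [Finset.mem_filter] at hv
        rcases Finset.mem_insert.1 (hZQ v hv.1) with h | h
        · exact absurd h hv.2
        · exact h
      · intro q' hq'
        have h2 : (Z.filter fun v => ¬ p v = q).filter (fun v => p v = q') =
            Z.filter fun v => p v = q' := by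
          rw [Finset.filter_filter]
          refine Finset.filter_congr fun v _ => ⟨fun h => h.2, fun h => ⟨fun h3 => ?_, h⟩⟩
          rw [← h3, h] at hqQ
          exact hqQ hq'
        rw [h2]
        exact hZs q' (Finset.mem_insert_of_mem hq')
  exact hall (X.image p) X (Finset.Subset.refl X) (fun v hv => Finset.mem_image_of_mem p hv)
    fun q _ => rfl

theorem follows_mono {X Y : Finset V} {a u : V → ℤ} {C N : ℕ} (h : Follows X a u C N)
    (hY : Y ⊆ X) : Follows Y a u C N :=
  fun T hT T' hT' => h T (hT.trans hY) T' (hT'.trans hY)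

/-- a block all of whose spanning subsets have a nonvanishing polynomial -/
theorem nzu_long (X : Finset V) (a u : V → ℤ) (C N : ℕ) (hF : Follows X a u C N)
    (hNV : ∀ Y ⊆ X, span (ZMod 2) (Y : Set V) = span (ZMod 2) (X : Set V) → NonV Y)
    (hlong : span (ZMod 2) {v | v ∈ X ∧ (N : ℤ) ≤ |a v|} = span (ZMod 2) (X : Set V)) :
    NZu X u := by
  classical
  obtain ⟨Y, hY⟩ : ∃ Y : Finset V, Y = X.filter fun v => u v ≠ 0 := ⟨_, rfl⟩
  have hYX : Y ⊆ X := by
    rw [hY]
    exact Finset.filter_subset _ _
  have hlY : ∀ v ∈ X, (N : ℤ) ≤ |a v| → v ∈ Y := by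
    intro v hv hl
    rw [hY, Finset.mem_filter]
    refine ⟨hv, fun h0 => ?_⟩
    refine (hF {v} (Finset.singleton_subset_iff.2 hv) ∅ (Finset.empty_subset _)).1 ?_ ?_
    · rw [Finset.sum_singleton, Finset.sum_empty, sub_zero]
      exact hl
    · rw [Finset.sum_singleton, Finset.sum_empty]
      exact h0
  have hs : span (ZMod 2) (Y : Set V) = span (ZMod 2) (X : Set V) := by
    refine le_antisymm (span_mono (Finset.coe_subset.2 hYX)) ?_
    rw [← hlong]
    exact span_mono fun v hv => hlY v hv.1 hv.2
  obtain ⟨z, hz, hz1⟩ := hNV Y hYX hs u fun v hv _ => by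
    rw [hY, Finset.mem_filter] at hv
    exact hv.2
  refine ⟨z, hz, ?_⟩
  rw [PP_res X Y hYX hs]
  · exact hz1
  · intro v hv hvY
    have h0 : u v = 0 := by
      by_contra hne
      apply hvY
      rw [hY, Finset.mem_filter]
      exact ⟨hv, hne⟩
    change z ^ u v = 1
    rw [h0, zpow_zero]

/-- a block with a spanning set which meets all short relations in an even number of elements -/
theorem nzu_even (X : Finset V) (a u : V → ℤ) (C N : ℕ) (hF : Follows X a u C N) (Y : Finset V)
    (hY : Y ⊆ X) (hs : span (ZMod 2) (Y : Set V) = span (ZMod 2) (X : Set V))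
    (he : ∀ d, Small X a N d → Even (∑ v ∈ Y, d v)) : NZu X u := by
  by_contra h
  obtain ⟨d, hd, hodd⟩ := (all_of_follows X a u C N hF h).1 Y hY hs
  exact Int.not_even_iff_odd.2 hodd (he d hd)

end Pool.Agent.TRP
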