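import Pool.Agent.TRA.Defs

/-!
# TRP: diagrams with few odd relations between the twist numbers (helper62)
-/

set_option autoImplicit false

namespace Pool.Agent.TRP

variable {ι : Type}

/-- `d` is a short relation between the numbers `c i`, `i ∈ P`: it has the entries `-1`, `0`, `1`, it is
zero outside of `P`, and `∑ d i * c i` is less than `T` in absolute value. -/
def Short (P : Finset ι) (c : ι → ℤ) (T : ℕ) (d : ι → ℤ) : Prop :=
  (∀ i, d i = -1 ∨ d i = 0 ∨ d i = 1) ∧ (∀ i, i ∉ P → d i = 0) ∧ |∑ i ∈ P, d i * c i| < T

/-- The classes with the label `q` contain a set `J` which meets the support of every short relation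
between the numbers `c i` of these classes in an even number of classes, while the classes with the label
`q` which are not in `J` contain no cycle. -/
def EvenPart [DecidableEq ι] (S : Finset ι) (Cyc : Finset ι → Prop) (c : ι → ℤ) (p : ι → ℕ)
    (T q : ℕ) : Prop :=
  ∃ J ⊆ S.filter fun i => p i = q, ¬ Cyc ((S.filter fun i => p i = q) \ J) ∧
    ∀ d, Short (S.filter fun i => p i = q) c T d → Even (∑ i ∈ J, d i)

end Pool.Agent.TRP
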