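import Pool.Agent.TRA.Reg
import Pool.Agent.TRP.Defs
import Pool.Agent.TRP.Sum

/-!
# TRP, module Block: the class form with a fifth alternative (helper62, after TRA/Reg of helper38)
-/

set_option autoImplicit false
set_option linter.unusedSectionVars false

open Submodule Module LaurentPolynomial

namespace Pool.Agent.TRP

open Pool.Agent.SPT Pool.Agent.SPT.Rel Pool.Agent.EQT Pool.Agent.FHP Pool.Agent.Helper16.Knotoid
open Pool.Agent.TRA

/-- few independent relations -/
private theorem Block_corank {V : Type} [AddCommGroup V] [Module (ZMod 2) V] [DecidableEq V]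
    [Module.Finite (ZMod 2) V] {D : ℕ} (hD : CorankReg D) {X P : Finset V}
    (h0 : (0 : V) ∉ X) (hP : P ⊆ X)
    (h : ∀ F ⊆ P, Co X F → F.card ≤ D) (Y : Finset V) (hY : Y ⊆ P) (hr : TRL.Reg Y) :
    NonV Y := by
  obtain ⟨J, hJP, hJ, hJm⟩ := exists_max X P
  refine hD V Y hr (fun h1 => h0 (hP (hY h1))) ?_
  have h1 := finrank_of_max hP hJP hJ hJm (Y \ J)
    (Finset.sdiff_subset_sdiff hY (Finset.Subset.refl J))
  have h2 := Submodule.finrank_mono (span_mono (R := ZMod 2) (Finset.coe_subset.2
    (Finset.sdiff_subset (s := Y) (t := J))))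
  have h3 := h J hJP hJ
  have h4 := Finset.card_le_card_sdiff_add_card (s := Y) (t := J)
  omega

private theorem Block_zero {V : Type} [AddCommGroup V] [Module (ZMod 2) V] [DecidableEq V]
    (X : Finset V) (u : V → ℤ) (h : ¬ NZu X u) : ¬ NZu (X.erase 0) u := by
  rintro ⟨z, hz, hz1⟩
  refine h ⟨z, hz, ?_⟩
  have hz0 : z ≠ 0 := by
    intro h0
    rw [h0, norm_zero] at hz
    exact zero_ne_one hz
  by_cases h0 : (0 : V) ∈ X
  · have h1 : X = insert 0 (X.erase 0) := (Finset.insert_erase h0).symm
    rw [h1, PP_loop (X.erase 0) ⊥ _ 0 (Finset.notMem_erase _ _) (zero_mem _)]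
    exact mul_ne_zero (zpow_ne_zero _ hz0) hz1
  · rw [Finset.erase_eq_of_notMem h0] at hz1
    exact hz1

variable {n : ℕ} {I : Fin n → Fin n → Prop} {e : Fin n → Bool}

/-- **The class form** -/
theorem Block_class (hi : ∀ i, ¬ I i i) (hs : ∀ i j, I i j → I j i) {S : Finset (Fin n)}
    (hS : Transversal I S) (Cyc : Finset (Fin n) → Prop)
    (hC : ∀ J ⊆ S, (∀ i, row (Graph_R I e) i ∈ span (ZMod 2)
      (row (Graph_R I e) '' ((S \ J : Finset (Fin n)) : Set (Fin n)))) ↔ ¬ Cyc J)
    (N : ℕ) (u : (Fin n → ZMod 2) → ℤ)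
    (hF : Follows (rows (Graph_R I e)) (twist (Graph_R I e) (cutState I e)) u 0 N)
    (hu : ¬ NZu (rows (Graph_R I e)) u)
    (hreg : ∀ Y ⊆ rows (Graph_R I e), TRL.Reg Y) {K R D : ℕ} (hK : CardReg K) (hR : RankReg R)
    (hD : CorankReg D) (p : Fin n → ℕ) (hp : Splits S Cyc p)
    (hsm : ∀ q, SmallPart S Cyc (row (Graph_R I e)) p K R D q ∨
      EvenPart S Cyc (twistNumber I e) p N q) :
    Cyc (S.filter fun i => |twistNumber I e i| < N) := by
  classical
  obtain ⟨X, hX⟩ : ∃ X, X = (rows (Graph_R I e)).erase 0 := ⟨_, rfl⟩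
  have hXS : X = S.image (row (Graph_R I e)) := by
    rw [hX, Graph_image hi hs hS]
  have hinj := Graph_inj (e := e) hi hs hS
  obtain ⟨a, ha⟩ : ∃ a, a = twist (Graph_R I e) (cutState I e) := ⟨_, rfl⟩
  have hF' : Follows X a u 0 N := by
    rw [hX, ha]
    exact fun T hT T' hT' => hF T (hT.trans (Finset.erase_subset _ _)) T'
      (hT'.trans (Finset.erase_subset _ _))
  have hu' : ¬ NZu X u := by
    rw [hX]
    exact Block_zero _ u hu
  have habs : ∀ i, |a (row (Graph_R I e) i)| = |twistNumber I e i| := by
    intro i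
    rw [ha]
    rcases Graph_twist (e := e) hi hs i with h2 | h2
    · rw [h2]
    · rw [h2, abs_neg]
  -- full rank
  have hfull : ∀ J ⊆ S, ¬ Cyc J ↔ span (ZMod 2) (((S \ J).image (row (Graph_R I e)) :
      Finset (Fin n → ZMod 2)) : Set (Fin n → ZMod 2)) = span (ZMod 2) (X : Set _) := by
    intro J hJ
    rw [← hC J hJ, Finset.coe_image]
    constructor
    · intro h
      refine le_antisymm (span_mono ?_) (span_le.2 ?_)
      · rw [hXS, Finset.coe_image]
        exact Set.image_mono (Finset.coe_subset.2 Finset.sdiff_subset)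
      · intro v hv
        rw [Finset.mem_coe, hXS, Finset.mem_image] at hv
        obtain ⟨i, -, rfl⟩ := hv
        exact h i
    · intro h i
      rw [h]
      by_cases h0 : row (Graph_R I e) i = 0
      · rw [h0]
        exact Submodule.zero_mem _
      · refine subset_span (Finset.mem_coe.2 ?_)
        rw [hX, Finset.mem_erase]
        refine ⟨h0, ?_⟩
        unfold rows
        exact Finset.mem_image_of_mem _ (Finset.mem_univ i)
  have himage : ∀ J ⊆ S, (S \ J).image (row (Graph_R I e)) = X \ J.image (row (Graph_R I e)) := by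
    intro J hJ
    ext v
    rw [Finset.mem_image, Finset.mem_sdiff, Finset.mem_image, hXS, Finset.mem_image]
    constructor
    · rintro ⟨i, hiT, rfl⟩
      rw [Finset.mem_sdiff] at hiT
      refine ⟨⟨i, hiT.1, rfl⟩, ?_⟩
      rintro ⟨j, hj, hji⟩
      exact hiT.2 (hinj (hJ hj) hiT.1 hji ▸ hj)
    · rintro ⟨⟨i, hiS, rfl⟩, h⟩
      exact ⟨i, Finset.mem_sdiff.2 ⟨hiS, fun h2 => h ⟨i, h2, rfl⟩⟩, rfl⟩
  have hco : ∀ J ⊆ S, ¬ Cyc J ↔ Co X (J.image (row (Graph_R I e))) := by
    intro J hJ
    rw [hfull J hJ, himage J hJ]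
    rfl
  -- subsets of `X` are images
  have hpre : ∀ J ⊆ X, (S.filter fun i => row (Graph_R I e) i ∈ J).image
      (row (Graph_R I e)) = J := by
    intro J hJX
    ext v
    rw [Finset.mem_image]
    constructor
    · rintro ⟨i, hiT, rfl⟩
      exact (Finset.mem_filter.1 hiT).2
    · intro hv
      have h2 := hJX hv
      rw [hXS, Finset.mem_image] at h2
      obtain ⟨i, hiS, rfl⟩ := h2
      exact ⟨i, Finset.mem_filter.2 ⟨hiS, hv⟩, rfl⟩
  -- the labels of the rows
  obtain ⟨P, hP⟩ : ∃ P : (Fin n → ZMod 2) → ℕ, ∀ i ∈ S, P (row (Graph_R I e) i) = p i := by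
    refine ⟨fun v => if h : ∃ i ∈ S, row (Graph_R I e) i = v then p h.choose else 0,
      fun i hiS => ?_⟩
    have h : ∃ j ∈ S, row (Graph_R I e) j = row (Graph_R I e) i := ⟨i, hiS, rfl⟩
    show (if h : ∃ j ∈ S, row (Graph_R I e) j = row (Graph_R I e) i then p h.choose else 0) = p i
    rw [dif_pos h]
    exact congrArg p (hinj h.choose_spec.1 hiS h.choose_spec.2)
  have hfil : ∀ J ⊆ S, ∀ q, (J.image (row (Graph_R I e))).filter (fun v => P v = q) =
      (J.filter fun i => p i = q).image (row (Graph_R I e)) := by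
    intro J hJ q
    ext v
    rw [Finset.mem_filter, Finset.mem_image, Finset.mem_image]
    constructor
    · rintro ⟨⟨i, hiJ, rfl⟩, h⟩
      rw [hP i (hJ hiJ)] at h
      exact ⟨i, Finset.mem_filter.2 ⟨hiJ, h⟩, rfl⟩
    · rintro ⟨i, hiJ, rfl⟩
      rw [Finset.mem_filter] at hiJ
      refine ⟨⟨i, hiJ.1, rfl⟩, ?_⟩
      rw [hP i (hJ hiJ.1)]
      exact hiJ.2
  have h0X : (0 : Fin n → ZMod 2) ∉ X := by
    rw [hX]
    exact Finset.notMem_erase _ _
  have hsp : ∀ J ⊆ X, (∀ q, Co X (J.filter fun v => P v = q)) → Co X J := by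
    intro J hJ hq
    obtain ⟨T, hT⟩ : ∃ T : Finset (Fin n), T = S.filter fun i => row (Graph_R I e) i ∈ J :=
      ⟨_, rfl⟩
    have hTS : T ⊆ S := by
      rw [hT]
      exact Finset.filter_subset _ _
    have hTJ : T.image (row (Graph_R I e)) = J := by
      rw [hT]
      exact hpre J hJ
    rw [← hTJ, ← hco T hTS]
    intro hc
    obtain ⟨q, hq1⟩ := hp T hTS hc
    have h1 := hq q
    rw [← hTJ, hfil T hTS q, ← hco _ ((Finset.filter_subset _ _).trans hTS)] at h1
    exact h1 hq1
  by_contra hc
  refine hu' (nzu_parts X P hsp u fun q => ?_)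
  have hXq : X.filter (fun v => P v = q) =
      (S.filter fun i => p i = q).image (row (Graph_R I e)) := by
    rw [hXS]
    exact hfil S (Finset.Subset.refl S) q
  have hPX : (S.filter fun i => p i = q).image (row (Graph_R I e)) ⊆ X := by
    rw [← hXq]
    exact Finset.filter_subset _ _
  have hdq := parts_disjoint X P hsp q
  rw [hXq] at hdq
  rw [hXq]
  have hrg : ∀ Y ⊆ (S.filter fun i => p i = q).image (row (Graph_R I e)), TRL.Reg Y :=
    fun Y hY => hreg Y (hY.trans (hPX.trans (by
      rw [hX]
      exact Finset.erase_subset _ _)))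
  have hFq := follows_mono hF' hPX
  rcases hsm q with hsm | ⟨J, hJ, hJc, hJe⟩
  · -- the old alternatives
    have hNV : ∀ Y ⊆ (S.filter fun i => p i = q).image (row (Graph_R I e)),
        span (ZMod 2) (Y : Set (Fin n → ZMod 2)) = span (ZMod 2)
          (((S.filter fun i => p i = q).image (row (Graph_R I e)) : Finset _) :
            Set (Fin n → ZMod 2)) → NonV Y := by
      rcases hsm with h | ⟨F, T, hF1, hF2, hF3, hF4⟩ | h | h
      · intro Y hY _
        exact hK _ Y (hrg Y hY) ((Finset.card_le_card (Finset.erase_subset _ _)).trans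
          ((Finset.card_le_card hY).trans (Finset.card_image_le.trans h)))
      · intro Y hY _
        refine hR _ Y (hrg Y hY) ?_
        have h1 : span (ZMod 2) (Y : Set (Fin n → ZMod 2)) ≤
            span (ZMod 2) ((T.image (row (Graph_R I e)) : Finset _) : Set (Fin n → ZMod 2)) := by
          refine (span_mono (Finset.coe_subset.2 hY)).trans ?_
          refine (span_part hPX
            ((hco F (hF1.trans (Finset.filter_subset _ _))).1 hF2) hdq).trans (span_mono (Finset.coe_subset.2 ?_))
          intro v hv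
          rw [Finset.mem_sdiff, Finset.mem_image] at hv
          obtain ⟨⟨i, hi1, rfl⟩, hv2⟩ := hv
          rw [Finset.mem_filter] at hi1
          refine Finset.mem_image_of_mem _ ?_
          rcases hF4 i hi1.1 hi1.2 with h | h
          · exact absurd (Finset.mem_image_of_mem _ h) hv2
          · exact h
        exact (Submodule.finrank_mono h1).trans ((finrank_span_finset_le_card _).trans
          (Finset.card_image_le.trans hF3))
      · intro Y hY _
        refine Block_corank hD h0X hPX (fun F hF hc => ?_) Y hY (hrg Y hY)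
        obtain ⟨T, hT⟩ : ∃ T : Finset (Fin n), T = (S.filter fun i => p i = q).filter fun i =>
            row (Graph_R I e) i ∈ F := ⟨_, rfl⟩
        have hTP : T ⊆ S.filter fun i => p i = q := by
          rw [hT]
          exact Finset.filter_subset _ _
        have hTF : T.image (row (Graph_R I e)) = F := by
          ext v
          rw [Finset.mem_image]
          constructor
          · rintro ⟨i, hiT, rfl⟩
            rw [hT, Finset.mem_filter] at hiT
            exact hiT.2
          · intro hv
            obtain ⟨i, hi1, rfl⟩ := Finset.mem_image.1 (hF hv)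
            exact ⟨i, by rw [hT, Finset.mem_filter]; exact ⟨hi1, hv⟩, rfl⟩
        have hTc : T.card = F.card := by
          rw [← hTF, Finset.card_image_of_injOn (hinj.mono
            (Finset.coe_subset.2 (hTP.trans (Finset.filter_subset _ _))))]
        rw [← hTc]
        refine h T hTP ?_
        rw [hco T (hTP.trans (Finset.filter_subset _ _)), hTF]
        exact hc
      · intro Y hY hs
        exact thm_SPNonV _ _ Y h hs Y (Finset.Subset.refl Y) hY
    refine nzu_long _ a u 0 N hFq hNV (le_antisymm (span_mono fun v hv => hv.1) ?_)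
    rw [hco _ (Finset.filter_subset _ _)] at hc
    refine (span_part hPX hc hdq).trans (span_mono fun v hv => ?_)
    rw [Finset.mem_coe, Finset.mem_sdiff] at hv
    refine ⟨hv.1, ?_⟩
    obtain ⟨i, hi1, rfl⟩ := Finset.mem_image.1 hv.1
    rw [habs]
    by_contra hlt
    exact hv.2 (Finset.mem_image_of_mem _ (Finset.mem_filter.2
      ⟨(Finset.mem_filter.1 hi1).1, not_le.1 hlt⟩))
  · -- the even part
    have hSq : (S.filter fun i => p i = q) ⊆ S := Finset.filter_subset _ _
    have hJS : J ⊆ S := hJ.trans hSq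
    have hJc2 := (hco _ (Finset.sdiff_subset.trans hSq)).1 hJc
    refine nzu_even _ a u 0 N hFq (J.image (row (Graph_R I e))) (Finset.image_subset_image hJ)
      (le_antisymm (span_mono (Finset.coe_subset.2 (Finset.image_subset_image hJ))) ?_) ?_
    · refine (span_part hPX hJc2 hdq).trans (span_mono (Finset.coe_subset.2 fun v hv => ?_))
      rw [Finset.mem_sdiff] at hv
      obtain ⟨i, hi1, rfl⟩ := Finset.mem_image.1 hv.1
      by_contra hiJ
      refine hv.2 (Finset.mem_image_of_mem _ (Finset.mem_sdiff.2 ⟨hi1, fun h => ?_⟩))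
      exact hiJ (Finset.mem_image_of_mem _ h)
    · intro d hd
      -- the signs
      obtain ⟨s, hs1, hs2⟩ : ∃ s : Fin n → ℤ, (∀ i, s i = 1 ∨ s i = -1) ∧
          ∀ i, a (row (Graph_R I e) i) = s i * twistNumber I e i := by
        have h1 : ∀ i, ∃ t : ℤ, (t = 1 ∨ t = -1) ∧
            a (row (Graph_R I e) i) = t * twistNumber I e i := by
          intro i
          rw [ha]
          rcases Graph_twist (e := e) hi hs i with h2 | h2
          · exact ⟨1, Or.inl rfl, by rw [h2, one_mul]⟩
          · exact ⟨-1, Or.inr rfl, by rw [h2, neg_one_mul]⟩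
        choose s hs using h1
        exact ⟨s, fun i => (hs i).1, fun i => (hs i).2⟩
      obtain ⟨d', hd'⟩ : ∃ d' : Fin n → ℤ, d' = fun i =>
          if i ∈ S.filter (fun i => p i = q) then s i * d (row (Graph_R I e) i) else 0 := ⟨_, rfl⟩
      have hd'1 : ∀ i ∈ S.filter (fun i => p i = q), d' i = s i * d (row (Graph_R I e) i) := by
        intro i h
        rw [hd']
        exact if_pos h
      have hinjq : Set.InjOn (row (Graph_R I e))
          ((S.filter fun i => p i = q : Finset (Fin n)) : Set (Fin n)) :=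
        hinj.mono (Finset.coe_subset.2 hSq)
      have hsh : Short (S.filter fun i => p i = q) (twistNumber I e) N d' := by
        refine ⟨fun i => ?_, fun i h => ?_, ?_⟩
        · by_cases h : i ∈ S.filter (fun i => p i = q)
          · rw [hd'1 i h]
            rcases hs1 i with h1 | h1 <;> rcases hd.1 (row (Graph_R I e) i) with h2 | h2 | h2 <;>
              rw [h1, h2] <;> norm_num
          · rw [hd']
            exact Or.inr (Or.inl (if_neg h))
        · rw [hd']
          exact if_neg h
        · have h1 := hd.2.2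
          rw [Finset.sum_image hinjq] at h1
          have h2 : ∑ i ∈ S.filter (fun i => p i = q), d' i * twistNumber I e i =
              ∑ i ∈ S.filter (fun i => p i = q), d (row (Graph_R I e) i) *
                a (row (Graph_R I e) i) := by
            refine Finset.sum_congr rfl fun i h => ?_
            rw [hd'1 i h, hs2 i]
            ring
          rw [h2]
          exact h1
      have h3 := hJe d' hsh
      rw [Finset.sum_image (hinjq.mono (Finset.coe_subset.2 hJ))]
      have h5 : Even (∑ i ∈ J, (d (row (Graph_R I e) i) - d' i)) := by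
        refine Finset.even_sum _ fun i h => ?_
        rw [hd'1 i (hJ h)]
        rcases hs1 i with h1 | h1
        · rw [h1, one_mul, sub_self]
          exact Even.zero
        · rw [h1, neg_one_mul, sub_neg_eq_add]
          exact ⟨_, rfl⟩
      rw [Finset.sum_sub_distrib, Int.even_sub] at h5
      exact h5.2 h3

end Pool.Agent.TRP
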