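import Pool.Agent.TRP.Block
import Pool.Agent.TRG.All
import Pool.Agent.TRC9.Card
import Pool.Agent.TRD.All

/-!
# TRP, module Last: the final forms (helper62, after TRA/Reg and TRA/Last of helper38)
-/

set_option autoImplicit false
set_option linter.unusedSectionVars false

open Submodule Module LaurentPolynomial

namespace Pool.Agent.TRP

open Pool.Agent.SPT Pool.Agent.SPT.Rel Pool.Agent.EQT Pool.Agent.FHP Pool.Agent.Helper16.Knotoid
open Pool.Agent.TRA

variable {n : ℕ}

/-- **knotoid diagrams** -/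
theorem knotoidEven {K R C : ℕ} (hK : CardReg K) (hR : RankReg R) (hC : CorankReg C)
    (D : GaussDiagram n)
    (S : Finset (Fin n)) (B : ℕ) (hS : Transversal D.Interlaced S) (hne : S.Nonempty)
    (p : Fin n → ℕ) (hp : Splits S (HasCycleO D) p)
    (hsm : ∀ q, SmallPart S (HasCycleO D)
        (row (D.Cut (cutState D.Interlaced D.sign))) p K R C q ∨
      EvenPart S (HasCycleO D) (twistNumber D.Interlaced D.sign) p
        ((B + 1) * 2 ^ 8 ^ (S.card + 2)) q)
    (h : coeffSum D.normalizedBracket ≤ B) :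
    HasCycleO D (S.filter fun i =>
      |twistNumber D.Interlaced D.sign i| < ((B + 1) * 2 ^ 8 ^ (S.card + 2) : ℕ)) := by
  classical
  obtain ⟨i, hi⟩ := hne
  obtain ⟨j, hj⟩ := hS.1 i hi
  have hcard : (rows (D.Cut (cutState D.Interlaced D.sign))).card ≤ S.card + 1 := by
    have h1 : ((rows (Graph_R D.Interlaced D.sign)).erase 0).card ≤ S.card := by
      rw [Graph_image (Graph_irrefl D) (Graph_int_symm D) hS]
      exact Finset.card_image_le
    have h2 := Finset.pred_card_le_card_erase (s := rows (Graph_R D.Interlaced D.sign)) (a := 0)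
    have h3 : rows (D.Cut (cutState D.Interlaced D.sign)) = rows (Graph_R D.Interlaced D.sign) :=
      rfl
    rw [h3]
    omega
  have hN : NX (S.card + 1) 0 B = (B + 1) * 2 ^ 8 ^ (S.card + 2) := by
    unfold NX
    ring
  obtain ⟨u, hF, hu⟩ : ∃ u, Follows (rows (D.Cut (cutState D.Interlaced D.sign)))
      (twist (D.Cut (cutState D.Interlaced D.sign)) (cutState D.Interlaced D.sign)) u 0
      (NX (S.card + 1) 0 B) ∧ ¬ NZu (rows (D.Cut (cutState D.Interlaced D.sign))) u := by
    by_contra hno
    push Not at hno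
    exact absurd (knotoidGX (S.card + 1) 0 B n D (cutState D.Interlaced D.sign)
      ⟨⟨i, j, Or.inl hj⟩, hcard, hno⟩) (by omega)
  rw [hN] at hF
  exact Block_class (Graph_irrefl D) (Graph_int_symm D) hS (HasCycleO D)
    (fun J hJ => knotoid_dict D hS hJ) _ u hF hu (fun Y hY => TRL.knotoid_reg D _ Y hY)
    hK hR hC p hp hsm

/-- **knot diagrams** -/
theorem knotEven {K R C : ℕ} (hK : CardReg K) (hR : RankReg R) (hC : CorankReg C)
    (g : GaussJones.Code n) (e : Fin n → Bool) (S : Finset (Fin n)) (B : ℕ)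
    (hS : Transversal (GaussJones.Interlaced g) S) (hne : S.Nonempty)
    (p : Fin n → ℕ) (hp : Splits S (HasCycle g) p)
    (hsm : ∀ q, SmallPart S (HasCycle g)
        (row (GaussJones.Cut g e (cutState (GaussJones.Interlaced g) e))) p K R C q ∨
      EvenPart S (HasCycle g) (twistNumber (GaussJones.Interlaced g) e) p
        ((B + 1) * 2 ^ 8 ^ (S.card + 2)) q)
    (h : coeffSum (GaussJones.fPoly g e) ≤ B) :
    HasCycle g (S.filter fun i =>
      |twistNumber (GaussJones.Interlaced g) e i| < ((B + 1) * 2 ^ 8 ^ (S.card + 2) : ℕ)) := by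
  classical
  obtain ⟨i, hi⟩ := hne
  obtain ⟨j, hj⟩ := hS.1 i hi
  have hirr : ∀ i, ¬ GaussJones.Interlaced g i i := by
    intro i h
    rcases h with h | h <;> exact lt_irrefl _ h.1
  have hsy : ∀ i j, GaussJones.Interlaced g i j → GaussJones.Interlaced g j i :=
    fun i j h => h.symm
  have hcard : (rows (GaussJones.Cut g e (cutState (GaussJones.Interlaced g) e))).card ≤
      S.card + 1 := by
    have h1 : ((rows (Graph_R (GaussJones.Interlaced g) e)).erase 0).card ≤ S.card := by
      rw [Graph_image hirr hsy hS]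
      exact Finset.card_image_le
    have h2 := Finset.pred_card_le_card_erase
      (s := rows (Graph_R (GaussJones.Interlaced g) e)) (a := 0)
    have h3 : rows (GaussJones.Cut g e (cutState (GaussJones.Interlaced g) e)) =
      rows (Graph_R (GaussJones.Interlaced g) e) := rfl
    rw [h3]
    omega
  have hN : NX (S.card + 1) 0 B = (B + 1) * 2 ^ 8 ^ (S.card + 2) := by
    unfold NX
    ring
  obtain ⟨u, hF, hu⟩ : ∃ u, Follows
      (rows (GaussJones.Cut g e (cutState (GaussJones.Interlaced g) e)))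
      (twist (GaussJones.Cut g e (cutState (GaussJones.Interlaced g) e))
        (cutState (GaussJones.Interlaced g) e)) u 0
      (NX (S.card + 1) 0 B) ∧
      ¬ NZu (rows (GaussJones.Cut g e (cutState (GaussJones.Interlaced g) e))) u := by
    by_contra hno
    push Not at hno
    exact absurd (knotGX (S.card + 1) 0 B n g e (cutState (GaussJones.Interlaced g) e)
      ⟨⟨i, j, Or.inl hj⟩, hcard, hno⟩) (by omega)
  rw [hN] at hF
  exact Block_class hirr hsy hS (HasCycle g) (fun J hJ => knot_dict g e hS hJ) _ u hF hu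
    (fun Y hY => TRL.knot_reg g e _ Y hY) hK hR hC p hp hsm


/-- **knotoid diagrams**: the final form -/
theorem knotoidAll (D : GaussDiagram n) (S : Finset (Fin n))
    (hS : Transversal D.Interlaced S) (hne : S.Nonempty) (p : Fin n → ℕ)
    (hp : Splits S (HasCycleO D) p) :
    (∀ B : ℕ, (∀ q, SmallPart S (HasCycleO D)
          (row (D.Cut (cutState D.Interlaced D.sign))) p 9 5 3 q ∨
        EvenPart S (HasCycleO D) (twistNumber D.Interlaced D.sign) p
          ((B + 1) * 2 ^ 8 ^ (S.card + 2)) q) →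
      ¬ HasCycleO D (S.filter fun i =>
        |twistNumber D.Interlaced D.sign i| < ((B + 1) * 2 ^ 8 ^ (S.card + 2) : ℕ)) →
      (B : ℤ) < coeffSum D.normalizedBracket) ∧
    ((∀ q, SmallPart S (HasCycleO D)
          (row (D.Cut (cutState D.Interlaced D.sign))) p 9 5 3 q ∨
        EvenPart S (HasCycleO D) (twistNumber D.Interlaced D.sign) p
          (2 * 2 ^ 8 ^ (S.card + 2)) q) →
      ¬ HasCycleO D (S.filter fun i =>
        |twistNumber D.Interlaced D.sign i| < (2 * 2 ^ 8 ^ (S.card + 2) : ℕ)) →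
      D.normalizedBracket ≠ 1) := by
  have key : ∀ B : ℕ, (∀ q, SmallPart S (HasCycleO D)
          (row (D.Cut (cutState D.Interlaced D.sign))) p 9 5 3 q ∨
        EvenPart S (HasCycleO D) (twistNumber D.Interlaced D.sign) p
          ((B + 1) * 2 ^ 8 ^ (S.card + 2)) q) →
      ¬ HasCycleO D (S.filter fun i =>
        |twistNumber D.Interlaced D.sign i| < ((B + 1) * 2 ^ 8 ^ (S.card + 2) : ℕ)) →
      (B : ℤ) < coeffSum D.normalizedBracket := by
    intro B hsm h
    by_contra hc
    exact h (knotoidEven (TRC9.cardReg9 TRG.rankReg5 TRD.corank3) TRG.rankReg5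
      (CorankReg_of TRD.corank3) D S B hS hne p hp hsm (not_lt.1 hc))
  refine ⟨key, fun hsm h h1 => ?_⟩
  have h2 := key 1 hsm h
  rw [h1, coeffSum_one] at h2
  exact absurd h2 (by norm_num)

/-- **knot diagrams**: the final form -/
theorem knotAll (g : GaussJones.Code n) (e : Fin n → Bool) (S : Finset (Fin n))
    (hS : Transversal (GaussJones.Interlaced g) S) (hne : S.Nonempty)
    (p : Fin n → ℕ) (hp : Splits S (HasCycle g) p) :
    (∀ B : ℕ, (∀ q, SmallPart S (HasCycle g)
          (row (GaussJones.Cut g e (cutState (GaussJones.Interlaced g) e))) p 9 5 3 q ∨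
        EvenPart S (HasCycle g) (twistNumber (GaussJones.Interlaced g) e) p
          ((B + 1) * 2 ^ 8 ^ (S.card + 2)) q) →
      ¬ HasCycle g (S.filter fun i =>
        |twistNumber (GaussJones.Interlaced g) e i| < ((B + 1) * 2 ^ 8 ^ (S.card + 2) : ℕ)) →
      (B : ℤ) < coeffSum (GaussJones.fPoly g e)) ∧
    ((∀ q, SmallPart S (HasCycle g)
          (row (GaussJones.Cut g e (cutState (GaussJones.Interlaced g) e))) p 9 5 3 q ∨
        EvenPart S (HasCycle g) (twistNumber (GaussJones.Interlaced g) e) p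
          (2 * 2 ^ 8 ^ (S.card + 2)) q) →
      ¬ HasCycle g (S.filter fun i =>
        |twistNumber (GaussJones.Interlaced g) e i| < (2 * 2 ^ 8 ^ (S.card + 2) : ℕ)) →
      GaussJones.fPoly g e ≠ 1) := by
  have key : ∀ B : ℕ, (∀ q, SmallPart S (HasCycle g)
          (row (GaussJones.Cut g e (cutState (GaussJones.Interlaced g) e))) p 9 5 3 q ∨
        EvenPart S (HasCycle g) (twistNumber (GaussJones.Interlaced g) e) p
          ((B + 1) * 2 ^ 8 ^ (S.card + 2)) q) →
      ¬ HasCycle g (S.filter fun i =>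
        |twistNumber (GaussJones.Interlaced g) e i| < ((B + 1) * 2 ^ 8 ^ (S.card + 2) : ℕ)) →
      (B : ℤ) < coeffSum (GaussJones.fPoly g e) := by
    intro B hsm h
    by_contra hc
    exact h (knotEven (TRC9.cardReg9 TRG.rankReg5 TRD.corank3) TRG.rankReg5
      (CorankReg_of TRD.corank3) g e S B hS hne p hp hsm (not_lt.1 hc))
  refine ⟨key, fun hsm h h1 => ?_⟩
  have h2 := key 1 hsm h
  rw [h1, coeffSum_one] at h2
  exact absurd h2 (by norm_num)

end Pool.Agent.TRP
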